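import Pool.Agent.helper63.TI.SpecA

/-!
# Project ti (MP_3703a7_ag): row ELN, eigenlines
-/

set_option autoImplicit false

namespace Pool.Agent.TI

open Polynomial NumberField Pool.Agent.GJ Pool.Agent.TK Pool.Agent.TQ Pool.Agent.TFQ Pool.Agent.TD Pool.Agent.AQ
open Pool.Agent.FJ (VT Om chiO IsFrobO rf rs)
open scoped TensorProduct

noncomputable section

theorem ELN_end {K W : Type} [Field K] [AddCommGroup W] [Module K W] (G : Module.End K W) (v n : ℕ)
    (e : Module.Basis (Fin n) K W) (μ : Fin n → K) (hμ : Function.Injective μ)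
    (h : ∀ t, (G ^ v) (e t) = μ t • e t) : ∃ c : Fin n → K, ∀ t, c t ^ v = μ t ∧ G (e t) = c t • e t := by
  have hrep : ∀ (y : W) (s : Fin n), e.repr ((G ^ v) y) s = μ s * e.repr y s := by
    intro y s
    have h1 : (e.coord s) ∘ₗ (G ^ v) = μ s • e.coord s := by
      refine e.ext fun t => ?_
      rw [LinearMap.comp_apply, h t, map_smul, LinearMap.smul_apply, Module.Basis.coord_apply,
        Module.Basis.repr_self, Finsupp.single_apply, smul_eq_mul, smul_eq_mul]
      by_cases hst : t = s
      · subst hst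
        rfl
      · rw [if_neg hst, mul_zero, mul_zero]
    exact LinearMap.congr_fun h1 y
  refine ⟨fun t => e.repr (G (e t)) t, fun t => ?_⟩
  have hG : G (e t) = e.repr (G (e t)) t • e t := by
    apply e.repr.injective
    refine Finsupp.ext fun s => ?_
    rw [map_smul, Module.Basis.repr_self, Finsupp.smul_apply, Finsupp.single_apply, smul_eq_mul]
    by_cases hst : t = s
    · subst hst
      rw [if_pos rfl, mul_one]
    · rw [if_neg hst, mul_zero]
      have h2 : (G ^ v) (G (e t)) = μ t • G (e t) := by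
        rw [← Module.End.mul_apply, ← pow_succ, pow_succ', Module.End.mul_apply, h t, map_smul]
      have h3 := hrep (G (e t)) s
      rw [h2, map_smul, Finsupp.smul_apply, smul_eq_mul] at h3
      have h4 : (μ t - μ s) * e.repr (G (e t)) s = 0 := by
        rw [sub_mul, h3, sub_self]
      rcases mul_eq_zero.1 h4 with h5 | h5
      · exact absurd (hμ (sub_eq_zero.1 h5)) hst
      · exact h5
  refine ⟨?_, hG⟩
  have hpow : ∀ (a : K), G (e t) = a • e t → ∀ k : ℕ, (G ^ k) (e t) = a ^ k • e t := by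
    intro a ha k
    induction k with
    | zero => rw [pow_zero, pow_zero, one_smul, Module.End.one_apply]
    | succ k ih => rw [pow_succ', Module.End.mul_apply, ih, map_smul, ha, smul_smul, ← pow_succ]
  have h6 := (hpow _ hG v).symm.trans (h t)
  have h7 : ((e.repr (G (e t)) t) ^ v - μ t) • e t = 0 := by
    rw [sub_smul, h6, sub_self]
  rcases smul_eq_zero.1 h7 with h8 | h8
  · exact sub_eq_zero.1 h8
  · exact absurd h8 (e.ne_zero t)

theorem ELN : ELN_stmt := by
  intro q _ V _ _ F v U n e μ hμ hU h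
  have hbs : ∀ k : ℕ, bs (F ^ k) = ((bs F : Module.End (PadicAlgCl q) (PadicAlgCl q ⊗[ℚ_[q]] V)) ^ k) := by
    intro k
    induction k with
    | zero =>
      rw [pow_zero, pow_zero]
      exact LinearMap.baseChange_id
    | succ k ih =>
      rw [pow_succ, pow_succ, ← ih]
      exact LinearMap.baseChange_comp _ _
  obtain ⟨G, hG⟩ : ∃ G : Module.End (PadicAlgCl q) U, ∀ w : U, ((G w : U) : PadicAlgCl q ⊗[ℚ_[q]] V) = bs F (w : PadicAlgCl q ⊗[ℚ_[q]] V) :=
    ⟨(bs F).restrict hU, fun w => rfl⟩
  have hGk : ∀ (k : ℕ) (w : U), (((G ^ k) w : U) : PadicAlgCl q ⊗[ℚ_[q]] V) =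
      ((bs F : Module.End (PadicAlgCl q) (PadicAlgCl q ⊗[ℚ_[q]] V)) ^ k) (w : PadicAlgCl q ⊗[ℚ_[q]] V) := by
    intro k
    induction k with
    | zero => intro w; rfl
    | succ k ih =>
      intro w
      rw [pow_succ, Module.End.mul_apply, ih, hG, pow_succ, Module.End.mul_apply]
  obtain ⟨c, hc⟩ := ELN_end G v n e μ hμ (fun t => by
    apply Subtype.ext
    rw [hGk, ← hbs, h t]
    rfl)
  refine ⟨c, fun t => ⟨(hc t).1, ?_⟩⟩
  rw [← hG, (hc t).2]
  rfl

end

end Pool.Agent.TI
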